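import Mathlib
import Pool.Agent.H301R3.PAC
import Pool.Agent.H301R3.Galois
import Pool.Agent.H301R3.SchemePt

/-!
# MP_023059_nt: a field with property (A) whose absolute Galois group is not procyclic

We construct a countable subfield `K` of the complex numbers, in which the rational numbers are
algebraically closed, and over which every geometrically integral scheme locally of finite type
has a rational point (a pseudo algebraically closed field).  In particular every `O`-acyclic
variety over `K` has a `K`-point, while the absolute Galois group of `K` is not topologically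
generated by one element (nor by any finite set).
-/

open CategoryTheory AlgebraicGeometry TopologicalSpace

namespace Pool.Agent.Results.MP_023059_nt.NotProcyclic

attribute [local instance] MvPolynomial.gradedAlgebra

/-- The structure sheaf of a scheme, regarded as a sheaf of abelian groups on its underlying
topological space. -/
noncomputable def structureSheafAb (X : Scheme.{0}) :
    Sheaf (Opens.grothendieckTopology X) AddCommGrpCat.{0} :=
  (sheafCompose (Opens.grothendieckTopology X)
    (forget₂ CommRingCat.{0} RingCat.{0} ⋙ forget₂ RingCat.{0} AddCommGrpCat.{0})).obj X.sheaf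

/-- `ℙⁿ_K ⟶ Spec K`, where `ℙⁿ_K = Proj K[x₀, …, xₙ]`. -/
noncomputable def projToSpec (K : Type) [Field K] (n : ℕ) :
    Proj (MvPolynomial.homogeneousSubmodule (Fin (n + 1)) K) ⟶ Spec (.of K) :=
  Proj.toSpecZero (MvPolynomial.homogeneousSubmodule (Fin (n + 1)) K) ≫
    Spec.map (CommRingCat.ofHom
      (algebraMap K (MvPolynomial.homogeneousSubmodule (Fin (n + 1)) K 0)))

/-- A `K`-scheme `f : X ⟶ Spec K` is projective if it is isomorphic over `K` to a closed
subscheme of some projective space `ℙⁿ_K`. -/
def IsProjective (K : Type) [Field K] {X : Scheme.{0}} (f : X ⟶ Spec (.of K)) : Prop :=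
  ∃ (n : ℕ) (i : X ⟶ Proj (MvPolynomial.homogeneousSubmodule (Fin (n + 1)) K)),
    IsClosedImmersion i ∧ i ≫ projToSpec K n = f

/-- A variety over `K`: a smooth, projective, geometrically integral `K`-scheme. -/
structure IsVariety (K : Type) [Field K] {X : Scheme.{0}} (f : X ⟶ Spec (.of K)) : Prop where
  smooth : Smooth f
  projective : IsProjective K f
  geometricallyIntegral : GeometricallyIntegral f

/-- The ring homomorphism `K → H⁰(X, O_X)` given by the structure morphism. -/
noncomputable def toGlobalSections (K : Type) [Field K] {X : Scheme.{0}}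
    (f : X ⟶ Spec (.of K)) : K →+* Γ(X, ⊤) :=
  f.appTop.hom.comp (Scheme.ΓSpecIso (.of K)).inv.hom

/-- `X` is `O`-acyclic: `dim_K H⁰(X, O_X) = 1` and `Hⁱ(X, O_X) = 0` for all `i > 0`. -/
structure IsOAcyclic (K : Type) [Field K] {X : Scheme.{0}} (f : X ⟶ Spec (.of K)) : Prop where
  h0 : @Module.finrank K Γ(X, ⊤) _ _ (toGlobalSections K f).toModule = 1
  higher : ∀ i : ℕ, 0 < i → Subsingleton (Sheaf.H (structureSheafAb X) i)

/-- Property (A): every `O`-acyclic variety over `K` has a `K`-rational point. -/
def PropertyA (K : Type) [Field K] : Prop :=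
  ∀ (X : Scheme.{0}) (f : X ⟶ Spec (.of K)), IsVariety K f → IsOAcyclic K f →
    ∃ s : Spec (.of K) ⟶ X, s ≫ f = 𝟙 (Spec (.of K))

/-- The absolute Galois group `Gal(Kˢ/K)`; it carries the Krull topology. -/
abbrev AbsGal (K : Type) [Field K] : Type := SeparableClosure K ≃ₐ[K] SeparableClosure K

/-- The closed subgroup generated by `S` is the whole group. -/
def TopologicallyGenerates {G : Type} [Group G] [TopologicalSpace G] (S : Set G) : Prop :=
  closure ((Subgroup.closure S : Subgroup G) : Set G) = Set.univ

/-- A topological group is procyclic if some element generates a dense subgroup. -/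
def IsProcyclic (G : Type) [Group G] [TopologicalSpace G] : Prop :=
  ∃ g : G, TopologicallyGenerates ({g} : Set G)

/-- There is a field `K` with property (A) whose absolute Galois group is not procyclic; in fact
no finite set generates it topologically. -/
theorem result : ∃ (K : Type) (_ : Field K), PropertyA K ∧ ¬ IsProcyclic (AbsGal K) ∧
    ∀ S : Set (AbsGal K), S.Finite → ¬ TopologicallyGenerates S := by
  obtain ⟨K, hK, hpac⟩ := Pool.Agent.H301R3.exists_pac
  have hfg : ∀ S : Set (AbsGal K), S.Finite → ¬ TopologicallyGenerates S := by
    intro S hS hgen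
    refine Pool.Agent.H301R3.not_fg K hK hS.toFinset ?_
    rw [Set.Finite.coe_toFinset]
    exact hgen
  refine ⟨K, inferInstance, ?_, ?_, hfg⟩
  · intro X f hX _
    have := hX.smooth
    have := hX.geometricallyIntegral
    exact Pool.Agent.H301R3.exists_section K hpac X f
  · rintro ⟨g, hg⟩
    exact hfg _ (Set.finite_singleton g) hg

end Pool.Agent.Results.MP_023059_nt.NotProcyclic
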